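import Mathlib

namespace Pool.Agent.Results.MP_d93447_an.FewPoints

open Set Real Polynomial

noncomputable def β (u : ℝ) : ℝ := (u * (1 - u)) ^ (5 / 2 : ℝ)
noncomputable def β' (u : ℝ) : ℝ := (1 - 2 * u) * (5 / 2) * (u * (1 - u)) ^ (3 / 2 : ℝ)

theorem off {u : ℝ} (h : u ∉ Ioo (0 : ℝ) 1) : β u = 0 ∧ β' u = 0 := by
  have : u * (1 - u) ≤ 0 := by
    rcases le_or_gt u 0 with h0 | h0
    · nlinarith
    · nlinarith [not_lt.1 fun h1 => h ⟨h0, h1⟩]
  have c3 : cos (3 / 2 * π) = 0 := cos_eq_zero_iff.2 ⟨1, by push_cast; ring⟩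
  have c5 : cos (5 / 2 * π) = 0 := cos_eq_zero_iff.2 ⟨2, by push_cast; ring⟩
  rw [β, β', rpow_def_of_nonpos this, rpow_def_of_nonpos this, c3, c5]
  split_ifs <;> simp_all

theorem on {u : ℝ} (h : u ∈ Ioo (0 : ℝ) 1) :
    |β u| ≤ 1 ∧ |β' u| ≤ 1 ∧ β u ^ 2 = (u * (1 - u)) ^ 5 := by
  have p : 0 < u * (1 - u) := mul_pos h.1 (sub_pos.2 h.2)
  have q : u * (1 - u) ≤ 1 / 4 := by nlinarith [sq_nonneg (u - 1 / 2)]
  have h3 := rpow_le_self_of_le_one p.le (by linarith) (by norm_num : (1 : ℝ) ≤ 3 / 2)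
  have h4 := rpow_nonneg p.le (3 / 2 : ℝ)
  refine ⟨(abs_of_nonneg (rpow_nonneg p.le _)).trans_le (rpow_le_one p.le (by linarith) (by norm_num)),
    abs_le.2 ⟨?_, ?_⟩, ?_⟩
  · rw [β']; nlinarith [h.1, h.2]
  · rw [β']; nlinarith [h.1, h.2]
  · rw [β, ← rpow_natCast, ← rpow_mul p.le, ← rpow_natCast]; norm_num

theorem dβ (u : ℝ) : HasDerivAt β (β' u) u := by
  have := ((hasDerivAt_id u).mul ((hasDerivAt_id u).const_sub 1)).rpow_const (p := 5 / 2)
    (.inr (by norm_num))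
  refine this.congr_deriv ?_
  rw [β', show (5 / 2 - 1 : ℝ) = 3 / 2 by norm_num]
  simp only [id, Pi.mul_apply]
  ring

noncomputable def h (K : ℕ) : ℝ := 1 / (16 * K ^ 2)
noncomputable def u (K i : ℕ) (x : ℝ) : ℝ := (x - i / K) / h K
noncomputable def y (K : ℕ) (x : ℝ) : ℝ := x ^ 2 + ∑ i ∈ Finset.range K, h K * β (u K i x)

variable {K : ℕ} (hK : 0 < K)
include hK

theorem h0 : 0 < h K := by unfold h; positivity

theorem h1 : h K ≤ 1 / (2 * K) := by
  have : (1 : ℝ) ≤ K := by exact_mod_cast hK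
  exact one_div_le_one_div_of_le (by positivity) (by nlinarith)

theorem dy (x : ℝ) : HasDerivAt (y K) (2 * x + ∑ i ∈ Finset.range K, β' (u K i x)) x := by
  refine HasDerivAt.add (by simpa using hasDerivAt_pow 2 x) (HasDerivAt.fun_sum fun i _ => ?_)
  refine (((dβ _).comp x (((hasDerivAt_id x).sub_const _).div_const (h K))).const_mul
    (h K)).congr_deriv ?_
  rw [mul_left_comm, mul_one_div_cancel (h0 hK).ne', mul_one]
  rfl

theorem gap {i j : ℕ} (e : i ≠ j) {x z : ℝ} (hx : u K i x ∈ Icc (0 : ℝ) 1)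
    (hz : u K j z ∈ Icc (0 : ℝ) 1) : 1 / (2 * K) ≤ |x - z| := by
  have k : (0 : ℝ) < K := by exact_mod_cast hK
  have p := h0 hK
  simp only [u, mem_Icc, le_div_iff₀ p, div_le_iff₀ p] at hx hz
  have t : (1 : ℝ) / K = 2 * (1 / (2 * K)) := by field_simp
  rcases e.lt_or_gt with e | e
  · have : ((i : ℝ) + 1) / K ≤ j / K := by gcongr; exact_mod_cast e
    rw [add_div] at this
    exact le_abs.2 (.inr (by linarith [h1 hK]))
  · have : ((j : ℝ) + 1) / K ≤ i / K := by gcongr; exact_mod_cast e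
    rw [add_div] at this
    exact le_abs.2 (.inl (by linarith [h1 hK]))

theorem one {i : ℕ} (hi : i < K) {x : ℝ} (hx : u K i x ∈ Icc (0 : ℝ) 1) (b : ℝ → ℝ)
    (hb : ∀ u ∉ Ioo (0 : ℝ) 1, b u = 0) : ∑ j ∈ Finset.range K, b (u K j x) = b (u K i x) :=
  Finset.sum_eq_single_of_mem i (Finset.mem_range.2 hi) fun j _ e => hb _ fun hj => by
    have := gap hK e (Ioo_subset_Icc_self hj) hx
    rw [sub_self, abs_zero] at this
    exact absurd this (not_le.2 (by positivity))

theorem alt (x : ℝ) : (y K x = x ^ 2 ∧ deriv (y K) x = 2 * x) ∨ ∃ i < K, u K i x ∈ Ioo (0 : ℝ) 1 ∧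
    y K x = x ^ 2 + h K * β (u K i x) ∧ deriv (y K) x = 2 * x + β' (u K i x) := by
  rw [(dy hK x).deriv, y]
  by_cases e : ∃ i < K, u K i x ∈ Ioo (0 : ℝ) 1
  · obtain ⟨i, hi, e⟩ := e
    exact .inr ⟨i, hi, e, by rw [one hK hi (Ioo_subset_Icc_self e) (fun u => h K * β u)
      fun u hu => by rw [(off hu).1, mul_zero]],
      by rw [one hK hi (Ioo_subset_Icc_self e) β' fun u hu => (off hu).2]⟩
  · push Not at e
    exact .inl ⟨by rw [Finset.sum_eq_zero fun i hi => by
      rw [(off (e i (Finset.mem_range.1 hi))).1, mul_zero], add_zero],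
      by rw [Finset.sum_eq_zero fun i hi => (off (e i (Finset.mem_range.1 hi))).2, add_zero]⟩

theorem few (a b : ℝ) : {x | y K x = a + b * x}.encard ≤ 22 := by
  classical
  have p0 := h0 hK
  let q : ℝ[X] := X ^ 2 - C a - C b * X
  let v : ℕ → ℝ[X] := fun i => (X - C ((i : ℝ) / K)) * C (h K)⁻¹
  let p : ℕ → ℝ[X] := fun i => q ^ 2 - C (h K ^ 2) * (v i * (1 - v i)) ^ 5
  let A := (Finset.range K).filter fun i => ∃ x, u K i x ∈ Icc (0 : ℝ) 1 ∧ |x ^ 2 - a - b * x| ≤ h K
  have hA : A.card ≤ 2 := by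
    by_contra! hA
    obtain ⟨i, j, l, hi, hj, hl, e1, e2, e3⟩ := Finset.two_lt_card_iff.1 hA
    obtain ⟨x, x1, x2⟩ := (Finset.mem_filter.1 hi).2
    obtain ⟨z, z1, z2⟩ := (Finset.mem_filter.1 hj).2
    obtain ⟨w, w1, w2⟩ := (Finset.mem_filter.1 hl).2
    have g1 := gap hK e1 x1 z1
    have g2 := gap hK e2 x1 w1
    have g3 := gap hK e3 z1 w1
    have d : (1 / (2 * K) : ℝ) * (1 / (2 * K)) = 4 * h K := by unfold h; field_simp; norm_num
    have d0 : (0 : ℝ) < 1 / (2 * K) := by positivity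
    have e : |x - z| * |x - w| * |z - w| ≤ h K * |z - w| + h K * |x - w| + h K * |x - z| := by
      rw [← abs_mul, ← abs_mul, show (x - z) * (x - w) * (z - w) = (x ^ 2 - a - b * x) * (z - w) +
        -((z ^ 2 - a - b * z) * (x - w)) + (w ^ 2 - a - b * w) * (x - z) by ring]
      refine (abs_add_three _ _ _).trans ?_
      rw [abs_neg, abs_mul, abs_mul, abs_mul]
      gcongr
    generalize |x - z| = r at *
    generalize |x - w| = s at *
    generalize |z - w| = t at *
    have m : ∀ {r s t : ℝ}, 1 / (2 * K) ≤ r → 1 / (2 * K) ≤ s → 1 / (2 * K) ≤ t →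
        4 * h K * t ≤ r * s * t := fun hr hs ht =>
      mul_le_mul_of_nonneg_right (d ▸ mul_le_mul hr hs d0.le (d0.le.trans hr)) (d0.le.trans ht)
    nlinarith [m g1 g2 g3, m g1 g3 g2, m g2 g3 g1, mul_pos p0 (d0.trans_le g1),
      mul_pos p0 (d0.trans_le g2), mul_pos p0 (d0.trans_le g3)]
  have ve : ∀ i x, (v i).eval x = u K i x := fun i x => by simp [v, u, div_eq_mul_inv]
  have q0 : q ≠ 0 := fun e => by
    have := fun x => congrArg (eval x) e
    simp only [q, eval_sub, eval_pow, eval_mul, eval_X, eval_C, eval_zero] at this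
    linarith [this 0, this 1, this (-1)]
  have pn : ∀ i, p i ≠ 0 := fun i e => by
    have := congrArg (eval (i / K - h K)) e
    simp only [p, eval_sub, eval_pow, eval_mul, eval_C, eval_zero, eval_one, ve] at this
    rw [u, sub_sub_cancel_left, neg_div, div_self p0.ne'] at this
    nlinarith [sq_nonneg (eval (i / K - h K) q), sq_pos_of_pos p0]
  have Q0 := mul_ne_zero q0 (Finset.prod_ne_zero_iff.2 fun i (_ : i ∈ A) => pn i)
  have dq : q.natDegree ≤ 2 := by unfold q; compute_degree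
  have dp : ∀ i, (p i).natDegree ≤ 10 := fun i => by unfold p q v; compute_degree
  have dQ : (q * ∏ i ∈ A, p i).natDegree ≤ 22 := natDegree_mul_le.trans (by
    have := (natDegree_prod_le A p).trans (Finset.sum_le_card_nsmul _ _ 10 fun i _ => dp i)
    rw [smul_eq_mul] at this
    omega)
  refine (encard_le_encard (t := (q * ∏ i ∈ A, p i).roots.toFinset) fun x hx => ?_).trans ?_
  · rw [Finset.mem_coe, Multiset.mem_toFinset, mem_roots Q0, IsRoot, eval_mul, eval_prod,
      mul_eq_zero, Finset.prod_eq_zero_iff]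
    have qe : q.eval x = x ^ 2 - a - b * x := by simp [q]
    rcases alt hK x with e | ⟨i, hi, h2, e, -⟩
    · exact .inl (by rw [qe, ← e.1, hx]; ring)
    · have e' : x ^ 2 - a - b * x = -(h K * β (u K i x)) := by linarith [mem_ofPred_eq ▸ hx]
      refine .inr ⟨i, Finset.mem_filter.2 ⟨Finset.mem_range.2 hi, x, Ioo_subset_Icc_self h2, ?_⟩, ?_⟩
      · rw [e', abs_neg, abs_mul, abs_of_pos p0]
        exact mul_le_of_le_one_right p0.le (on h2).1
      · simp only [p, eval_sub, eval_pow, eval_mul, eval_C, eval_one, ve, qe, e', ← (on h2).2.2]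
        ring
  · rw [encard_coe_eq_coe_finsetCard]
    exact_mod_cast ((Multiset.toFinset_card_le _).trans (card_roots' _)).trans dQ

omit hK in
theorem smooth : ContDiff ℝ 2 (y K) := by
  refine (contDiff_id.pow 2).add (ContDiff.sum fun i _ => contDiff_const.mul ?_)
  exact (contDiff_rpow_const_of_le (n := 2) (by norm_num)).comp (by unfold u; fun_prop)

theorem curv : K * β' (1 / 4) ≤ ∫ x in (0 : ℝ)..1, |deriv (deriv (y K)) x| := by
  have k : (0 : ℝ) < K := by exact_mod_cast hK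
  have p0 := h0 hK
  have s1 : ContDiff ℝ 1 (deriv (y K)) := (smooth (K := K)).deriv'
  have c := s1.continuous_deriv le_rfl
  have := intervalIntegral.sum_integral_adjacent_intervals (μ := MeasureTheory.volume)
    (a := fun i : ℕ => (i : ℝ) / K) (n := K) fun _ _ => c.abs.intervalIntegrable _ _
  simp only [Nat.cast_zero, zero_div, div_self k.ne'] at this
  rw [← this, ← nsmul_eq_mul]
  refine (congrArg (· • _) (Finset.card_range K)).ge.trans
    (Finset.card_nsmul_le_sum _ _ _ fun i hi => ?_)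
  rw [Finset.mem_range] at hi
  have t : (1 : ℝ) / K = 2 * (1 / (2 * K)) := by field_simp
  refine le_trans ?_ (intervalIntegral.integral_mono_interval (a := i / K) (b := i / K + h K / 4)
    le_rfl (by linarith) (by push_cast; rw [add_div]; linarith [h1 hK])
    (.of_forall fun _ => abs_nonneg _) (c.abs.intervalIntegrable _ _))
  refine le_trans ?_ (intervalIntegral.abs_integral_le_integral_abs (by linarith))
  have u1 : u K i (i / K + h K / 4) = 1 / 4 := by rw [u]; field_simp; ring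
  have u0 : u K i (i / K) = 0 := by simp [u]
  rw [intervalIntegral.integral_deriv_eq_sub (fun x _ => s1.differentiable one_ne_zero x)
    (c.intervalIntegrable _ _), (dy hK _).deriv, (dy hK _).deriv,
    one hK hi (by rw [u1]; norm_num) β' fun u hu => (off hu).2,
    one hK hi (by rw [u0]; norm_num) β' fun u hu => (off hu).2, u1, u0, (off (u := 0) (by simp)).2]
  exact le_abs.2 (.inl (by linarith))

omit hK in
theorem result (L : ℝ) : ∃ y : ℝ → ℝ, ContDiff ℝ 2 y ∧
    (∀ x ∈ Icc (0 : ℝ) 1, |y x| ≤ 3 ∧ |deriv y x| ≤ 3) ∧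
    L ≤ ∫ x in (0 : ℝ)..1, |deriv (deriv y) x| ∧
    ∀ a b : ℝ, {x ∈ Icc (0 : ℝ) 1 | y x = a + b * x}.encard ≤ 22 := by
  have c : 0 < β' (1 / 4) := by unfold β'; positivity
  obtain ⟨K, hL⟩ := exists_nat_gt (|L| / β' (1 / 4))
  have hK : 0 < K := by exact_mod_cast (by positivity : 0 ≤ |L| / β' (1 / 4)).trans_lt hL
  refine ⟨y K, smooth, fun x hx => ?_, ((le_abs_self L).trans ((div_lt_iff₀ c).1 hL).le).trans
    (curv hK), fun a b => (encard_le_encard fun x hx => hx.2).trans (few hK a b)⟩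
  have k : (1 : ℝ) ≤ K := by exact_mod_cast hK
  have p1 : h K ≤ 1 := (h1 hK).trans ((div_le_one (by positivity)).2 (by linarith))
  rcases alt hK x with ⟨e1, e2⟩ | ⟨i, -, hi, e1, e2⟩ <;> rw [e1, e2, abs_le, abs_le]
  · refine ⟨⟨?_, ?_⟩, ?_, ?_⟩ <;> nlinarith [hx.1, hx.2]
  · have a1 := abs_le.1 (on hi).1
    have a2 := abs_le.1 (on hi).2.1
    refine ⟨⟨?_, ?_⟩, ?_, ?_⟩ <;> nlinarith [hx.1, hx.2, h0 hK]

end Pool.Agent.Results.MP_d93447_an.FewPoints
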